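import Mathlib

set_option autoImplicit false

namespace Pool.Agent.Results.MP_87030c_co.AlmostAll

open Finset Filter Classical

/-- The pure complex with facet set `Δ` (facets of size `d`) is shellable: the facets can be listed
so that for every facet after the first, all maximal faces of the intersection of its simplex with
the complex generated by the earlier facets have `d - 1` elements. -/
def Shellable {m : ℕ} (d : ℕ) (Δ : Finset (Finset (Fin m))) : Prop :=
  ∃ (t : ℕ) (F : Fin t → Finset (Fin m)), Function.Injective F ∧ Set.range F = Δ ∧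
    ∀ j : Fin t, 0 < j.1 → ∀ G, Maximal (fun G => G ⊆ F j ∧ ∃ i < j, G ⊆ F i) G → #G = d - 1

/-- Probability that a uniformly random set of `d`-subsets of `[m]` is shellable. -/
noncomputable def prob (d m : ℕ) : ℝ :=
  (#{Δ ∈ (powersetCard d (univ : Finset (Fin m))).powerset | Shellable d Δ} : ℝ) / 2 ^ m.choose d

theorem rank {m : ℕ} (d : ℕ) : ∀ (V : Finset (Fin m)) (Δ : Finset (Finset (Fin m))),
    Δ ⊆ powersetCard d V → (∀ A ⊆ V, #A = d → ∃ c ∈ V \ A, ∀ a ∈ A, insert c (A.erase a) ∈ Δ) →
    ∃ r : Finset (Fin m) → ℕ, Set.InjOn r Δ ∧ ∀ F ∈ Δ, ∀ G ∈ Δ, r G < r F →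
      ∃ H ∈ Δ, r H < r F ∧ F ∩ G ⊆ H ∧ #(F ∩ H) + 1 = d := by
  induction d with
  | zero =>
    refine fun V Δ h _ => ⟨fun _ => 0, fun F a G b _ => ?_, by simp⟩
    rw [powersetCard_zero] at h
    exact (mem_singleton.mp (h a)).trans (mem_singleton.mp (h b)).symm
  | succ d ih =>
    intro V Δ h E
    replace h := fun F a => mem_powersetCard.mp (@h F a)
    rcases V.eq_empty_or_nonempty with rfl | ⟨v, hv⟩
    · have : ∀ F, F ∉ Δ := fun F a => by have := h F a; grind
      exact ⟨fun _ => 0, fun F a => absurd a (this F), fun F a => absurd a (this F)⟩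
    obtain ⟨r, r1, r2⟩ := ih (V.erase v) {G | v ∉ G ∧ insert v G ∈ Δ} (fun G a => by
      simp only [mem_filter, mem_univ, true_and] at a
      have := h _ a.2
      rw [card_insert_of_notMem a.1] at this
      exact mem_powersetCard.mpr ⟨by clear * - this a; grind, by omega⟩) fun A a b => by
        have nv : v ∉ A := fun g => by simpa using a g
        obtain ⟨c, c1, c2⟩ := E (insert v A) (by clear * - a hv; grind) (by rw [card_insert_of_notMem nv, b])
        clear * - c1 c2 nv
        refine ⟨c, by grind, fun x hx => mem_filter.mpr ⟨mem_univ _, by grind, ?_⟩⟩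
        convert c2 x (by grind) using 1
        clear c2; grind
    simp only [coe_filter, mem_filter, mem_univ, true_and] at r1 r2
    obtain ⟨B, hB⟩ := (Set.finite_range r).bddAbove
    replace hB : ∀ F, r F ≤ B := fun F => hB ⟨F, rfl⟩
    obtain ⟨N, e, e1, e2⟩ : ∃ N, ∃ e : Finset (Fin m) → ℕ, e.Injective ∧ ∀ F, e F < N :=
      ⟨_, fun F => Fintype.equivFin _ F, Fin.val_injective.comp (Equiv.injective _),
        fun F => Fin.is_lt _⟩
    let P : Finset (Fin m) → Prop := fun F => ∃ c, ∀ a ∈ F, a ≠ c → insert v (F.erase a) ∈ Δ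
    let s : Finset (Fin m) → ℕ := fun F =>
      if v ∈ F then r (F.erase v) else if P F then B + 1 + e F else B + 1 + N + e F
    have l : ∀ F ∈ Δ, v ∈ F → v ∉ F.erase v ∧ insert v (F.erase v) ∈ Δ := fun F a b =>
      ⟨notMem_erase _ _, by rwa [insert_erase b]⟩
    refine ⟨s, fun F a G b g => ?_, fun F a G b g => ?_⟩
    · have := hB (F.erase v); have := hB (G.erase v); have := e2 F; have := e2 G
      simp only [s] at g
      split_ifs at g with x y <;> try omega
      · rw [← insert_erase x, r1 (l F a x) (l G b y) g, insert_erase y]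
      · exact e1 (by omega)
      · exact e1 (by omega)
    by_cases x : v ∈ F
    · have y : v ∈ G := by
        by_contra y
        have := hB (F.erase v)
        simp only [s, if_pos x, if_neg y] at g
        split_ifs at g <;> omega
      simp only [s, if_pos x, if_pos y] at g
      obtain ⟨H, ⟨h1, h2⟩, h3, h4, h5⟩ := r2 _ (l F a x) _ (l G b y) g
      refine ⟨_, h2, by simpa [s, x, h1] using h3, by clear * - h4; grind, ?_⟩
      rw [← h5, ← card_insert_of_notMem (a := v) (s := F.erase v ∩ H) (by simp)]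
      congr 2
      clear * - x; grind
    have k : ∀ a ∈ F, a ∉ G → ∀ H ∈ Δ, s H < s F → F.erase a ⊆ H →
        ∃ H ∈ Δ, s H < s F ∧ F ∩ G ⊆ H ∧ #(F ∩ H) + 1 = d + 1 := fun y y1 y2 H h1 h2 h3 => by
      refine ⟨H, h1, h2, by clear * - h3 y2; grind, ?_⟩
      have : y ∉ H := fun g => by
        rw [eq_of_subset_of_card_le (show F ⊆ H by clear * - h3 g; grind) (by rw [(h _ a).2, (h _ h1).2])] at h2
        exact h2.false
      rw [show F ∩ H = F.erase y by clear * - h3 this; grind, card_erase_add_one y1, (h _ a).2]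
    obtain ⟨y, y1, y2⟩ : ∃ y ∈ F, y ∉ G := not_subset.mp fun f => by
      rw [eq_of_subset_of_card_le f (by rw [(h _ a).2, (h _ b).2])] at g
      exact g.false
    by_cases p : P F
    · obtain ⟨c, hc⟩ := id p
      by_cases q : F.erase y ⊆ G
      · exact k y y1 y2 G b g q
      obtain ⟨z, z1, z2, z3⟩ : ∃ z ∈ F, z ∉ G ∧ z ≠ c := by clear * - q y1 y2; grind
      refine k z z1 z2 _ (hc z z1 z3) ?_ (subset_insert _ _)
      simp only [s, mem_insert_self, if_true, if_neg x, if_pos p]
      exact (hB _).trans_lt (by omega)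
    · have nv : v ∉ F.erase y := fun g => x (mem_of_mem_erase g)
      obtain ⟨c, c1, c2⟩ := E (insert v (F.erase y)) (insert_subset hv ((erase_subset _ _).trans (h _ a).1))
        (by rw [card_insert_of_notMem nv, card_erase_add_one y1, (h _ a).2])
      have := c2 v (by simp)
      rw [erase_insert nv] at this
      refine k y y1 y2 _ this ?_ (subset_insert _ _)
      have q : P (insert c (F.erase y)) := ⟨c, fun z z1 z2 => by
        convert c2 z (by clear * - z1 z2; grind) using 1
        clear * - z1 z2 nv c1; grind⟩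
      have := e2 (insert c (F.erase y))
      simp only [s, if_neg x, if_neg p, if_pos q, 
        if_neg (show v ∉ insert c (F.erase y) by clear * - nv c1; grind)]
      omega

theorem shell {m d : ℕ} (Δ : Finset (Finset (Fin m))) (h : Δ ⊆ powersetCard d univ)
    (E : ∀ A, #A = d → ∃ c ∉ A, ∀ a ∈ A, insert c (A.erase a) ∈ Δ) : Shellable d Δ := by
  obtain ⟨r, r1, r2⟩ := rank d univ Δ h (by simpa using E)
  let f := fun i => r (Δ.equivFin.symm i)
  let F := fun i => (Δ.equivFin.symm (Tuple.sort f i)).1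
  have a : Function.Injective F :=
    Subtype.val_injective.comp ((Equiv.injective _).comp (Equiv.injective _))
  have b : ∀ i, F i ∈ Δ := fun i => Subtype.prop _
  have c : ∀ G ∈ Δ, ∃ i, F i = G := fun G g =>
    ⟨(Tuple.sort f).symm (Δ.equivFin ⟨G, g⟩), by simp [F]⟩
  have s : StrictMono (r ∘ F) := (Tuple.monotone_sort f).strictMono_of_injective
    fun i j e => a (r1 (b i) (b j) e)
  refine ⟨_, F, a, Set.ext fun G => ⟨fun ⟨i, e⟩ => e ▸ b i, c G⟩, fun j _ G ⟨⟨g1, i, g2, g3⟩, g4⟩ => ?_⟩
  obtain ⟨H, h1, h2, h3, h4⟩ := r2 _ (b j) _ (b i) (s g2)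
  obtain ⟨k, rfl⟩ := c H h1
  have : G ⊆ F j ∩ F k := subset_inter g1 ((subset_inter g1 g3).trans h3)
  rw [this.antisymm (g4 ⟨inter_subset_left, k, s.lt_iff_lt.mp h2, inter_subset_right⟩ this), ← h4]
  rfl

theorem bad {m d : ℕ} (A : Finset (Fin m)) (h : #A = d) :
    #{Δ ∈ (powersetCard d (univ : Finset (Fin m))).powerset |
      ∀ c ∉ A, ∃ a ∈ A, insert c (A.erase a) ∉ Δ} * (2 ^ d) ^ (m - d) ≤
      (2 ^ d - 1) ^ (m - d) * 2 ^ m.choose d := by
  let I := (Aᶜ ×ˢ A).image fun p => insert p.1 (A.erase p.2)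
  have i1 : I ⊆ powersetCard d univ := image_subset_iff.mpr fun p a => by
    simp only [mem_product, mem_compl] at a
    rw [mem_powersetCard_univ, card_insert_of_notMem (by grind), card_erase_add_one a.2, h]
  have i2 : #I = (m - d) * d := by
    rw [card_image_of_injOn, card_product, card_compl, Fintype.card_fin, h]
    rintro ⟨c, a⟩ x ⟨c', a'⟩ y e
    simp only [coe_product, Set.mem_prod, mem_coe, mem_compl] at x y e
    have := Finset.ext_iff.mp e c
    have := Finset.ext_iff.mp e a
    grind
  have i3 := card_le_card i1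
  have := card_le_card_of_injOn (s := {Δ ∈ (powersetCard d (univ : Finset (Fin m))).powerset |
      ∀ c ∉ A, ∃ a ∈ A, insert c (A.erase a) ∉ Δ})
    (t := (Fintype.piFinset fun _ : ↥Aᶜ => A.powerset.erase A) ×ˢ
      (powersetCard d univ \ I).powerset)
    (fun Δ => (fun c => {a ∈ A | insert c.1 (A.erase a) ∈ Δ}, Δ \ I)) (fun Δ a => by
      simp only [coe_filter, mem_powerset, Set.mem_ofPred_eq, mem_coe, mem_product,
        Fintype.mem_piFinset, mem_erase] at *
      refine ⟨fun c => ⟨fun e => ?_, filter_subset _ _⟩, sdiff_subset_sdiff a.1 le_rfl⟩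
      obtain ⟨x, x1, x2⟩ := a.2 c (mem_compl.mp c.2)
      exact x2 (filter_eq_self.mp e x x1)) fun Δ _ Δ' _ e => by
      ext S
      by_cases g : S ∈ I
      · obtain ⟨⟨c, a⟩, u, rfl⟩ := mem_image.mp g
        rw [mem_product] at u
        simpa [show a ∈ A from u.2] using
          Finset.ext_iff.mp (congrFun (congrArg Prod.fst e) ⟨c, u.1⟩) a
      · simpa [g] using Finset.ext_iff.mp (congrArg Prod.snd e) S
  rw [card_product, Fintype.card_piFinset, prod_const, card_erase_of_mem (mem_powerset_self _),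
    card_powerset, card_powerset, card_sdiff_of_subset i1, card_univ, Fintype.card_coe, card_compl,
    h] at this
  rw [card_powersetCard, card_fin, Fintype.card_fin, i2] at *
  refine (Nat.mul_le_mul_right _ this).trans (le_of_eq ?_)
  rw [mul_assoc, ← pow_mul, ← pow_add, mul_comm d, Nat.sub_add_cancel i3]

theorem result (d : ℕ) : Tendsto (prob d) atTop (nhds 1) := by
  have h1 : (1 : ℝ) ≤ 2 ^ d := one_le_pow₀ one_le_two
  have h0 : 0 ≤ ((2 : ℝ) ^ d - 1) / 2 ^ d := by positivity
  have t := ((tendsto_pow_const_mul_const_pow_of_abs_lt_one d (r := (2 ^ d - 1) / 2 ^ d)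
    (by rw [abs_of_nonneg h0, div_lt_one (by positivity)]; linarith)).const_mul
    ((d + 1 : ℝ) ^ d)).const_sub 1
  rw [mul_zero, sub_zero] at t
  refine (tendsto_add_atTop_iff_nat d).mp (tendsto_of_tendsto_of_tendsto_of_le_of_le' t
    tendsto_const_nhds ?_ (.of_forall fun m => ?_))
  swap
  · refine div_le_one_of_le₀ ?_ (by positivity)
    exact_mod_cast (card_filter_le _ _).trans (by simp)
  filter_upwards [eventually_ge_atTop 1] with n hn
  have a := card_filter_add_card_filter_not (s := (powersetCard d (univ : Finset (Fin (n + d)))).powerset)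
    (Shellable d)
  have b : #{Δ ∈ (powersetCard d (univ : Finset (Fin (n + d)))).powerset | ¬ Shellable d Δ} *
      (2 ^ d) ^ n ≤ (n + d).choose d * ((2 ^ d - 1) ^ n * 2 ^ (n + d).choose d) := by
    refine (Nat.mul_le_mul_right _ ((card_le_card (t := (powersetCard d univ).biUnion fun A =>
      {Δ ∈ (powersetCard d univ).powerset | ∀ c ∉ A, ∃ a ∈ A, insert c (A.erase a) ∉ Δ})
      fun Δ g => ?_).trans card_biUnion_le)).trans ?_
    · rw [mem_filter, mem_powerset] at g
      by_contra f
      refine g.2 (shell Δ g.1 fun A e => ?_)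
      simpa [g.1] using fun u => f (mem_biUnion.mpr ⟨A, mem_powersetCard_univ.mpr e, u⟩)
    · rw [sum_mul]
      refine (sum_le_card_nsmul _ _ _ fun A g => ?_).trans (by simp; rfl)
      simpa using bad A (mem_powersetCard_univ.mp g)
  rw [card_powerset, card_powersetCard, card_fin] at a
  have c : (n + d).choose d ≤ (d + 1) ^ d * n ^ d := by
    rw [← mul_pow]
    exact (Nat.choose_le_pow _ _).trans (Nat.pow_le_pow_left (by nlinarith) _)
  replace b := b.trans (Nat.mul_le_mul_right _ c)
  rw [prob, le_div_iff₀ (by positivity), div_pow]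
  have a' := congrArg (Nat.cast (R := ℝ)) a
  have b' := (Nat.cast_le (α := ℝ)).mpr b
  push_cast [Nat.one_le_two_pow] at a' b'
  rw [← le_div_iff₀ (by positivity)] at b'
  calc _ = 2 ^ (n + d).choose d - ((d : ℝ) + 1) ^ d * n ^ d *
      ((2 ^ d - 1) ^ n * 2 ^ (n + d).choose d) / (2 ^ d) ^ n := by ring
    _ ≤ _ := by linarith

end Pool.Agent.Results.MP_87030c_co.AlmostAll
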